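import Mathlib

/-!
# Leaves of complete binary trees and the ternary relation `level x z = level x y + 1`

`T k` is the set of the `2 ^ k` leaves of the complete binary tree of height `k`, and `lev k x y` is
the height of the lowest common ancestor of the leaves `x` and `y`. The ternary relation `S k`
determines the function `lev k` and the height `k`, so that the structures `(T k; S k)` form an
antichain with respect to embeddings, and its automorphism group contains a Sylow `2`-subgroup of
the symmetric group of `T k`.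
-/

set_option autoImplicit false

namespace Pool.Agent.R617.MC

/-- The leaves of the complete binary tree of height `k`. -/
def T : ℕ → Type
  | 0 => Unit
  | k + 1 => Bool × T k

instance instFintypeT : (k : ℕ) → Fintype (T k)
  | 0 => inferInstanceAs (Fintype Unit)
  | k + 1 => letI := instFintypeT k; inferInstanceAs (Fintype (Bool × T k))

instance instInhabitedT : (k : ℕ) → Inhabited (T k)
  | 0 => inferInstanceAs (Inhabited Unit)
  | k + 1 => letI := instInhabitedT k; inferInstanceAs (Inhabited (Bool × T k))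

/-- The leaf `x` of the half `b`. -/
def mk {k : ℕ} (b : Bool) (x : T k) : T (k + 1) := ((b, x) : Bool × T k)

/-- The half of a leaf. -/
def hd {k : ℕ} (x : T (k + 1)) : Bool := Prod.fst (show Bool × T k from x)

/-- The position in the half. -/
def tl {k : ℕ} (x : T (k + 1)) : T k := Prod.snd (show Bool × T k from x)

theorem hd_mk {k : ℕ} (b : Bool) (x : T k) : hd (mk b x) = b := rfl
theorem tl_mk {k : ℕ} (b : Bool) (x : T k) : tl (mk b x) = x := rfl
theorem mk_hd_tl {k : ℕ} (x : T (k + 1)) : mk (hd x) (tl x) = x := rfl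

theorem ext {k : ℕ} {x y : T (k + 1)} (h1 : hd x = hd y) (h2 : tl x = tl y) : x = y := by
  rw [← mk_hd_tl x, ← mk_hd_tl y, h1, h2]

theorem card_T : ∀ k, Nat.card (T k) = 2 ^ k
  | 0 => by
    show Nat.card Unit = _
    simp
  | k + 1 => by
    have h := card_T k
    show Nat.card (Bool × T k) = _
    rw [Nat.card_prod, h, Nat.card_eq_fintype_card, Fintype.card_bool, pow_succ]
    ring

/-- The height of the lowest common ancestor of two leaves. -/
def lev : (k : ℕ) → T k → T k → ℕ
  | 0, _, _ => 0
  | k + 1, x, y => if hd x = hd y then lev k (tl x) (tl y) else k + 1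

theorem lev_succ {k : ℕ} (x y : T (k + 1)) :
    lev (k + 1) x y = if hd x = hd y then lev k (tl x) (tl y) else k + 1 := rfl

theorem lev_same {k : ℕ} {x y : T (k + 1)} (h : hd x = hd y) :
    lev (k + 1) x y = lev k (tl x) (tl y) := by rw [lev_succ, if_pos h]

theorem lev_diff {k : ℕ} {x y : T (k + 1)} (h : hd x ≠ hd y) :
    lev (k + 1) x y = k + 1 := by rw [lev_succ, if_neg h]

theorem lev_self : ∀ {k : ℕ} (x : T k), lev k x x = 0
  | 0, _ => rfl
  | k + 1, x => by rw [lev_succ, if_pos rfl, lev_self]

theorem lev_le : ∀ {k : ℕ} (x y : T k), lev k x y ≤ k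
  | 0, _, _ => le_refl _
  | k + 1, x, y => by
    rw [lev_succ]
    split_ifs
    · exact (lev_le _ _).trans (Nat.le_succ _)
    · exact le_refl _

theorem eq_of_lev : ∀ {k : ℕ} {x y : T k}, lev k x y = 0 → x = y
  | 0, x, y, _ => Subsingleton.elim (α := Unit) x y
  | k + 1, x, y, h => by
    rw [lev_succ] at h
    split_ifs at h with h1
    exact ext h1 (eq_of_lev h)

theorem exists_lev : ∀ {k : ℕ} (x : T k) {j : ℕ}, j ≤ k → ∃ y, lev k x y = j
  | 0, x, j, h => ⟨x, by rw [lev_self]; omega⟩
  | k + 1, x, j, h => by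
    rcases Nat.lt_or_ge j (k + 1) with h1 | h1
    · obtain ⟨y, hy⟩ := exists_lev (k := k) (tl x) (Nat.lt_succ_iff.1 h1)
      exact ⟨mk (hd x) y, by rw [lev_succ, hd_mk, tl_mk, if_pos rfl]; exact hy⟩
    · refine ⟨mk (!hd x) (tl x), ?_⟩
      rw [lev_succ, hd_mk, if_neg (by simp)]
      omega

/-- The ternary relation. -/
def S (k : ℕ) (x y z : T k) : Prop := lev k x z = lev k x y + 1 ∨ (y = z ∧ lev k x y = k)

theorem lev_map {k l : ℕ} {f : T k → T l} (hf : Function.Injective f)
    (h : ∀ x y z, S k x y z → S l (f x) (f y) (f z)) :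
    ∀ (n : ℕ) (x z : T k), lev k x z = n → lev l (f x) (f z) = n
  | 0, x, z, hn => by rw [eq_of_lev hn, lev_self]
  | n + 1, x, z, hn => by
    obtain ⟨y, hy⟩ := exists_lev x (j := n) (by have := lev_le x z; omega)
    have h1 := lev_map hf h n x y hy
    rcases h x y z (Or.inl (by rw [hn, hy])) with h2 | h2
    · rw [h2, h1]
    · have := hf h2.1
      subst this
      omega

theorem height_eq {k l : ℕ} {f : T k → T l} (hf : Function.Injective f)
    (h : ∀ x y z, S k x y z → S l (f x) (f y) (f z)) : k = l := by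
  obtain ⟨y, hy⟩ := exists_lev (default : T k) (le_refl k)
  have h1 := lev_map hf h k _ y hy
  rcases h default y y (Or.inr ⟨rfl, hy⟩) with h2 | h2
  · omega
  · rw [← h2.2, h1]

/-- The permutations of the leaves that preserve the level function. -/
def Lv (k : ℕ) : Subgroup (Equiv.Perm (T k)) where
  carrier := {σ | ∀ x y, lev k (σ x) (σ y) = lev k x y}
  mul_mem' := by
    intro σ τ hσ hτ x y
    show lev k (σ (τ x)) (σ (τ y)) = _
    rw [hσ, hτ]
  one_mem' := fun x y => rfl
  inv_mem' := by
    intro σ hσ x y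
    have := hσ (σ⁻¹ x) (σ⁻¹ y)
    simpa using this.symm

/-- Assembling a permutation from a swap and permutations of the two halves. -/
def build {k : ℕ} (c : Bool) (σ : Bool → Lv k) : Equiv.Perm (T (k + 1)) where
  toFun x := mk (xor c (hd x)) ((σ (hd x)).1 (tl x))
  invFun x := mk (xor c (hd x)) ((σ (xor c (hd x))).1.symm (tl x))
  left_inv x := by
    refine ext ?_ ?_
    · simp only [hd_mk]
      simp
    · simp only [hd_mk, tl_mk]
      have : xor c (xor c (hd x)) = hd x := by simp
      rw [this]
      simp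
  right_inv x := by
    refine ext ?_ ?_
    · simp only [hd_mk]
      simp
    · simp only [hd_mk, tl_mk]
      simp

theorem build_apply {k : ℕ} (c : Bool) (σ : Bool → Lv k) (x : T (k + 1)) :
    build c σ x = mk (xor c (hd x)) ((σ (hd x)).1 (tl x)) := rfl

theorem build_mem {k : ℕ} (c : Bool) (σ : Bool → Lv k) : build c σ ∈ Lv (k + 1) := by
  intro x y
  rw [build_apply, build_apply]
  by_cases h : hd x = hd y
  · rw [lev_same h, lev_same (by rw [hd_mk, hd_mk, h]), tl_mk, tl_mk, h]
    exact (σ (hd y)).2 _ _
  · rw [lev_diff h, lev_diff (by rw [hd_mk, hd_mk]; simpa using h)]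

theorem build_inj {k : ℕ} : Function.Injective
    (fun p : Bool × (Bool → Lv k) => (⟨build p.1 p.2, build_mem _ _⟩ : Lv (k + 1))) := by
  rintro ⟨c, σ⟩ ⟨d, τ⟩ h
  have h1 : ∀ x, build c σ x = build d τ x := fun x => by
    have := congrArg Subtype.val h
    exact congrFun (congrArg DFunLike.coe this) x
  have h2 : ∀ (b : Bool) (x : T k), xor c b = xor d b ∧ (σ b).1 x = (τ b).1 x := fun b x => by
    have := h1 (mk b x)
    rw [build_apply, build_apply] at this
    exact ⟨congrArg hd this, congrArg tl this⟩
  have h3 : c = d := by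
    have := (h2 false default).1
    simpa using this
  subst h3
  have h4 : σ = τ := by
    funext b
    apply Subtype.ext
    apply Equiv.ext
    intro x
    exact (h2 b x).2
  rw [h4]

theorem build_surj {k : ℕ} : Function.Surjective
    (fun p : Bool × (Bool → Lv k) => (⟨build p.1 p.2, build_mem _ _⟩ : Lv (k + 1))) := by
  rintro ⟨τ, hτ⟩
  have same : ∀ (b : Bool) (x y : T k), hd (τ (mk b x)) = hd (τ (mk b y)) := by
    intro b x y
    have h := hτ (mk b x) (mk b y)
    rw [lev_succ, lev_succ, hd_mk, hd_mk, tl_mk, tl_mk, if_pos rfl] at h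
    by_contra hne
    rw [if_neg hne] at h
    have := lev_le (k := k) x y
    omega
  have diff : ∀ (x y : T k), hd (τ (mk false x)) ≠ hd (τ (mk true y)) := by
    intro x y heq
    have h := hτ (mk false x) (mk true y)
    rw [lev_succ, lev_succ, if_pos heq, hd_mk, hd_mk, if_neg (by simp)] at h
    have := lev_le (tl (τ (mk false x))) (tl (τ (mk true y)))
    omega
  have lev2 : ∀ (b : Bool) (x y : T k),
      lev k (tl (τ (mk b x))) (tl (τ (mk b y))) = lev k x y := by
    intro b x y
    have h := hτ (mk b x) (mk b y)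
    rw [lev_succ, lev_succ, hd_mk, hd_mk, tl_mk, tl_mk, if_pos rfl, if_pos (same b x y)] at h
    exact h
  have inj : ∀ b : Bool, Function.Injective (fun x : T k => tl (τ (mk b x))) := by
    intro b x y h
    apply eq_of_lev
    have h1 := lev2 b x y
    rw [← h1]
    have h2 : tl (τ (mk b x)) = tl (τ (mk b y)) := h
    rw [h2, lev_self]
  let σ : Bool → Lv k := fun b =>
    ⟨Equiv.ofBijective (fun x : T k => tl (τ (mk b x))) (Finite.injective_iff_bijective.1 (inj b)),
      fun x y => lev2 b x y⟩
  refine ⟨(hd (τ (mk false default)), σ), ?_⟩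
  apply Subtype.ext
  apply Equiv.ext
  intro x
  show build (hd (τ (mk false default))) σ x = τ x
  rw [build_apply]
  refine ext ?_ rfl
  rw [hd_mk, ← mk_hd_tl x, hd_mk]
  rcases hd x with _ | _
  · rw [same false (tl x) default]
    simp
  · have := diff default (tl x)
    rcases h : hd (τ (mk false default)) with _ | _ <;>
      rcases h' : hd (τ (mk true (tl x))) with _ | _
    · rw [h, h'] at this; exact absurd rfl this
    · rfl
    · rfl
    · rw [h, h'] at this; exact absurd rfl this

theorem card_Lv : ∀ k, Nat.card (Lv k) = 2 ^ (2 ^ k - 1)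
  | 0 => by
    have : Subsingleton (Equiv.Perm (T 0)) :=
      inferInstanceAs (Subsingleton (Equiv.Perm Unit))
    have h2 : Subsingleton (Lv 0) := inferInstance
    simp
  | k + 1 => by
    have h := Nat.card_congr (Equiv.ofBijective _ ⟨build_inj (k := k), build_surj⟩)
    rw [← h, Nat.card_prod, Nat.card_fun, card_Lv k]
    simp only [Nat.card_eq_fintype_card, Fintype.card_bool]
    have h1 : 1 ≤ 2 ^ k := Nat.one_le_two_pow
    rw [← pow_mul, ← pow_succ']
    congr 1
    rw [pow_succ]
    omega

/-- Renaming the elements of a ternary relation. -/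
def ren {V W : Type} (e : V → W) (R : W → W → W → Prop) : V → V → V → Prop :=
  fun x y z => R (e x) (e y) (e z)

/-- The action of the permutations on ternary relations. -/
instance renAction (V : Type) : MulAction (Equiv.Perm V) (V → V → V → Prop) where
  smul σ R := ren (σ⁻¹ : Equiv.Perm V) R
  one_smul _ := rfl
  mul_smul σ τ R := by
    show ren _ _ = ren _ (ren _ _)
    rw [mul_inv_rev]
    rfl

theorem smul_def' {V : Type} (σ : Equiv.Perm V) (R : V → V → V → Prop) :
    σ • R = ren (σ⁻¹ : Equiv.Perm V) R := rfl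

theorem Lv_le (k : ℕ) : Lv k ≤ MulAction.stabilizer (Equiv.Perm (T k)) (S k) := by
  intro σ hσ
  have h := (Lv k).inv_mem hσ
  rw [MulAction.mem_stabilizer_iff, smul_def']
  funext x y z
  simp only [ren, S, eq_iff_iff]
  rw [h x z, h x y]
  simp

theorem odd_orbit (k : ℕ) :
    Odd (Nat.card (MulAction.orbit (Equiv.Perm (T k)) (S k))) := by
  classical
  have h1 : Nat.card (MulAction.orbit (Equiv.Perm (T k)) (S k)) *
      Nat.card (MulAction.stabilizer (Equiv.Perm (T k)) (S k)) = (2 ^ k).factorial := by
    have h := Nat.card_congr (MulAction.orbitProdStabilizerEquivGroup (Equiv.Perm (T k)) (S k))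
    rw [Nat.card_prod, Nat.card_perm, card_T] at h
    exact h
  have h2 : 2 ^ (2 ^ k - 1) ∣ Nat.card (MulAction.stabilizer (Equiv.Perm (T k)) (S k)) := by
    rw [← card_Lv]
    exact Subgroup.card_dvd_of_le (Lv_le k)
  by_contra hodd
  rw [Nat.not_odd_iff_even, even_iff_two_dvd] at hodd
  have h3 : 2 ^ (2 ^ k) ∣ (2 ^ k).factorial := by
    rw [← h1]
    have h4 := mul_dvd_mul hodd h2
    have h5 : 1 ≤ 2 ^ k := Nat.one_le_two_pow
    rwa [← pow_succ', Nat.sub_add_cancel h5] at h4
  have h6 := Nat.emultiplicity_two_factorial_lt (n := 2 ^ k) (by positivity)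
  have h7 := le_emultiplicity_of_pow_dvd h3
  exact absurd h6 (not_lt.2 h7)

end Pool.Agent.R617.MC
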